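import Mathlib
import Pool.Agent.helper30.RandomSubst.Defs
import Pool.Agent.helper30.RandomSubst.Main
set_option autoImplicit false

open Pool.Agent.helper30.RandomSubst

namespace Pool.Agent.Results.MP_771d0b_an.NotResiduallyFinite

/-- Let `X` be the subshift of the random substitution `a ↦ {abaa, aaba}`, `b ↦ {abab, baba}`
(defined in `Pool.Agent.helper30.RandomSubst.Defs`) and let `AutX` be the group of
self-homeomorphisms of `X` commuting with the shift.  This group is not residually finite. -/
theorem result : ¬ Group.ResiduallyFinite AutX := not_residuallyFinite

end Pool.Agent.Results.MP_771d0b_an.NotResiduallyFinite
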